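import Pool.Agent.H20.ER3.Lib

/-!
# MP_816b90_co: corners as interiors of paths
-/

set_option autoImplicit false

namespace Pool.Agent.H1.ER3

open Pool.Agent.H48.ER Pool.Agent.H52.ER2 Pool.Agent.H66.ER2 Pool.Agent.H20.ER3

variable {V : Type} {G : SimpleGraph V} {R : Set V}

theorem Int.rev {F : Set V} {m : ℕ} {c d : V} (h : Int G F m c d) : Int G F m d c := by
  obtain ⟨h1, h2, h3, h4⟩ := h
  refine ⟨h1, h3, h2, ?_⟩
  have := h4.rev
  rwa [Set.insert_comm] at this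

theorem Cr.int2 {F : Set V} {m : ℕ} {f f' y a2 a3 : V} (h : Cr G F m f f' y a2 a3)
    (hy : y ∉ F) (ha : a2 ∉ F) (hne : y ≠ a2) (hna : ¬ G.Adj y a2) : Int G F (m + 2) y a2 := by
  refine ⟨by omega, hy, ha, ?_⟩
  have h1 : IP G (m + 1) f a2 (insert a2 F) := h.ip.snoc ha h.h2
  refine h1.cons ?_ ?_
  · intro e
    rcases e with e | e
    · exact hne e
    · exact hy e
  · intro w hw
    rcases hw with rfl | hw
    · constructor
      · intro e; exact absurd e hna
      · intro e; rw [e] at ha; exact absurd h.ip.left_mem ha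
    · exact h.hy w hw

theorem Cr.swap {F : Set V} {m : ℕ} {f f' y a2 a3 : V} (h : Cr G F m f f' y a2 a3) :
    Cr G F m f f' y a3 a2 := ⟨h.ip, h.ev, h.hy, h.h3, h.h2⟩

theorem Cr.int3 {F : Set V} {m : ℕ} {f f' y a2 a3 : V} (h : Cr G F m f f' y a2 a3)
    (hy : y ∉ F) (ha : a3 ∉ F) (hne : y ≠ a3) (hna : ¬ G.Adj y a3) : Int G F (m + 2) y a3 :=
  Cr.int2 (Cr.swap h) hy ha hne hna

theorem Sees.not_mem {F : Set V} {a : V} (h : Sees G R F a) : a ∉ F := fun e => h.1 (h.2.1 e)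

/-- a vertex outside of `R` which is not adjacent to the root is anticomplete to the set -/
theorem not_sees {F : Set V} {a : V} (ha : a ∉ R) (hF : F ⊆ R) (hC : Cn G F)
    (h : ¬ Sees G R F a) : ∀ f ∈ F, ¬ G.Adj a f := fun f hf e => h ⟨ha, hF, hC, f, hf, e⟩

end Pool.Agent.H1.ER3
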