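import Pool.Agent.H1.ER3.CrLib

/-!
# MP_816b90_co: nonadjacent vertices of prisms
-/

set_option autoImplicit false

namespace Pool.Agent.H1.ER3

open Pool.Agent.H48.ER Pool.Agent.H52.ER2 Pool.Agent.H66.ER2 Pool.Agent.H20.ER3

variable {V : Type} {G : SimpleGraph V} {R : Set V} {n : Fin 3 → ℕ} {g : Fin 3 → ℕ → V ⊕ Set V}

theorem pi_nadj (hpi : PI (MG G R) n g) (i j : Fin 3) (k l : ℕ) {u v : V} (hk : k ≤ n i)
    (hl : l ≤ n j) (hu : g i k = Sum.inl u) (hv : g j l = Sum.inl v)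
    (hno : ¬ ((i = j ∧ (k + 1 = l ∨ l + 1 = k)) ∨
        (i ≠ j ∧ ((k = 0 ∧ l = 0) ∨ (k = n i ∧ l = n j))))) : ¬ G.Adj u v := by
  intro hadj
  refine hno ((hpi.adj i j k l hk hl).1 ?_)
  rw [hu, hv]; exact hadj

theorem pi_nsees (hpi : PI (MG G R) n g) (i j : Fin 3) (k l : ℕ) {F : Set V} {v : V}
    (hk : k ≤ n i) (hl : l ≤ n j) (hu : g i k = Sum.inr F) (hv : g j l = Sum.inl v)
    (hno : ¬ ((i = j ∧ (k + 1 = l ∨ l + 1 = k)) ∨
        (i ≠ j ∧ ((k = 0 ∧ l = 0) ∨ (k = n i ∧ l = n j))))) : ¬ Sees G R F v := by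
  intro hadj
  refine hno ((hpi.adj i j k l hk hl).1 ?_)
  rw [hu, hv]; exact hadj

theorem pi_ne (hpi : PI (MG G R) n g) (i j : Fin 3) (k l : ℕ) {u v : V} (hk : k ≤ n i)
    (hl : l ≤ n j) (hu : g i k = Sum.inl u) (hv : g j l = Sum.inl v)
    (hno : ¬ (i = j ∧ k = l)) : u ≠ v := by
  intro huv
  refine hno (hpi.inj i j k l hk hl ?_)
  rw [hu, hv, huv]

/-- the exchange of `0` and `1` -/
def s01 : Fin 3 → Fin 3 := ![1, 0, 2]

theorem s01_inj : Function.Injective s01 := by decide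

theorem s01_0 : s01 0 = 1 := rfl
theorem s01_1 : s01 1 = 0 := rfl
theorem s01_2 : s01 2 = 2 := rfl

end Pool.Agent.H1.ER3
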