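import Pool.Agent.H1.ER3.CrLib

/-!
# MP_816b90_co: row Q5 of er3
-/

set_option autoImplicit false

namespace Pool.Agent.H1.ER3

open Pool.Agent.H48.ER Pool.Agent.H52.ER2 Pool.Agent.H66.ER2 Pool.Agent.H20.ER3

theorem pf_Q5 (hQC : U_QC) (hQE : U_QE) (hPS : U_PS) (hGP : U_GP) (hGU : U_GU) (hCL : U_CL) :
    U_Q5 := by
  intro V _ G R F F' n g hE hA hH hM hg0 hgn hT
  have hpi := hM.pi
  have hp0 := hpi.pos 0
  have hp1 := hpi.pos 1
  have hp2 := hpi.pos 2
  have ho0 := hM.odd 0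
  obtain ⟨q0, hq0⟩ := ho0
  -- n 0 >= 3
  have hn3 : 3 ≤ n 0 := by
    by_contra hlt
    have h1 : n 0 = 1 := by omega
    have := (hpi.adj 0 0 0 (n 0) (by omega) le_rfl).2 (Or.inl ⟨rfl, Or.inl (by omega)⟩)
    rw [hg0, hgn] at this
    exact mg_rr this
  obtain ⟨y, a2, a3, f, f', m, hy, ha2, ha3, sy, sa2, sa3, hcr⟩ :=
    hQC V False G R F n g hE hH hM hg0
  have hMf := (hQE V False G R n g hM).2
  obtain ⟨y', b2, b3, e, e', m', hy', hb2, hb3, sy', sb2, sb3, hcr'⟩ :=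
    hQC V False G R F' n _ hE hH hMf (by simpa using hgn)
  simp only [Nat.sub_zero] at hb2 hb3
  have hy' : g 0 (n 0 - 1) = Sum.inl y' := hy'
  have hFR : F ⊆ R := sy.2.1
  have hFC : Cn G F := sy.2.2.1
  have hFR' : F' ⊆ R := sy'.2.1
  have hFC' : Cn G F' := sy'.2.2.1
  obtain ⟨hD1, hD2, hD3⟩ := hGU V G R F F' hFR hFR' hFC hFC' hT
  have hmem0 : Sum.inr F ∈ vI n g := ⟨0, 0, by omega, hg0⟩
  have hmem1 : Sum.inr F' ∈ vI n g := ⟨0, n 0, le_rfl, hgn⟩
  -- the segment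
  have hseg := hPS (V ⊕ Set V) (MG G R) n g 0 1 (n 0 - 1) hpi (by omega) (by omega)
  have hn0 : n 0 = 3 := by
    by_contra hne
    have hev := hGP V False G R (F ∪ F') (n 0 - 1 - 1) _ _ _ hH hseg (by omega) ?_ ?_
    · obtain ⟨r, hr⟩ := hev
      omega
    · rintro w ⟨k, hk1, hk2, rfl⟩
      rw [hD2, ← hg0, ← hgn, hpi.adj 0 0 0 k (by omega) (by omega),
        hpi.adj 0 0 (n 0) k le_rfl (by omega)]
      constructor
      · rintro ((h | h) | (h | h))
        · left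
          have : k = 1 := by omega
          rw [this]
        · exact absurd rfl h.1
        · right
          have : k = n 0 - 1 := by omega
          rw [this]
        · exact absurd rfl h.1
      · rintro (h | h)
        · have := (hpi.inj 0 0 k 1 (by omega) (by omega) h).2
          left; left; exact ⟨rfl, by omega⟩
        · have := (hpi.inj 0 0 k (n 0 - 1) (by omega) (by omega) h).2
          right; left; exact ⟨rfl, by omega⟩
    · refine ⟨hD3 (vI n g) _ hM.al.1 hmem0 hmem1 ?_, fun h => h.elim⟩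
      refine Set.insert_subset_insert ?_
      rintro w ⟨k, hk1, hk2, rfl⟩
      exact ⟨0, k, by omega, rfl⟩
  have hy2 : g 0 2 = Sum.inl y' := by rw [← hy']; congr 1; omega
  -- nonadjacent pairs
  have nadj : ∀ (i j : Fin 3) (k l : ℕ) (u v : V), k ≤ n i → l ≤ n j → g i k = Sum.inl u →
      g j l = Sum.inl v → ¬ ((i = j ∧ (k + 1 = l ∨ l + 1 = k)) ∨
        (i ≠ j ∧ ((k = 0 ∧ l = 0) ∨ (k = n i ∧ l = n j)))) → ¬ G.Adj u v := by
    intro i j k l u v hk hl hu hv hno hadj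
    refine hno ((hpi.adj i j k l hk hl).1 ?_)
    rw [hu, hv]; exact hadj
  have nsF : ∀ (j : Fin 3) (l : ℕ) (v : V), l ≤ n j → g j l = Sum.inl v →
      ¬ (((0 : Fin 3) = j ∧ (0 + 1 = l ∨ l + 1 = 0)) ∨
        ((0 : Fin 3) ≠ j ∧ ((0 = 0 ∧ l = 0) ∨ (0 = n 0 ∧ l = n j)))) → ¬ Sees G R F v := by
    intro j l v hl hv hno hadj
    refine hno ((hpi.adj 0 j 0 l (by omega) hl).1 ?_)
    rw [hg0, hv]; exact hadj
  have nsF' : ∀ (j : Fin 3) (l : ℕ) (v : V), l ≤ n j → g j l = Sum.inl v →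
      ¬ (((0 : Fin 3) = j ∧ (n 0 + 1 = l ∨ l + 1 = n 0)) ∨
        ((0 : Fin 3) ≠ j ∧ ((n 0 = 0 ∧ l = 0) ∨ (n 0 = n 0 ∧ l = n j)))) → ¬ Sees G R F' v := by
    intro j l v hl hv hno hadj
    refine hno ((hpi.adj 0 j (n 0) l le_rfl hl).1 ?_)
    rw [hgn, hv]; exact hadj
  have h01 : (0 : Fin 3) ≠ 1 := by decide
  have h02 : (0 : Fin 3) ≠ 2 := by decide
  have h12 : (1 : Fin 3) ≠ 2 := by decide
  have hne : ∀ (i j : Fin 3) (k l : ℕ) (u v : V), k ≤ n i → l ≤ n j → g i k = Sum.inl u →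
      g j l = Sum.inl v → ¬ (i = j ∧ k = l) → u ≠ v := by
    intro i j k l u v hk hl hu hv hno huv
    refine hno (hpi.inj i j k l hk hl ?_)
    rw [hu, hv, huv]
  have i1 : Int G F (m + 2) a2 y := Int.rev (Cr.int2 hcr (Sees.not_mem sy) (Sees.not_mem sa2)
    (hne 0 1 1 0 _ _ (by omega) (by omega) hy ha2 (fun h => h01 h.1))
    (nadj 0 1 1 0 _ _ (by omega) (by omega) hy ha2 (by
      rintro (h | h)
      · exact h01 h.1
      · omega)))
  have i2 : Int G F' (m' + 2) y' b3 := Cr.int3 hcr' (Sees.not_mem sy') (Sees.not_mem sb3)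
    (hne 0 2 2 (n 2) _ _ (by omega) (by omega) hy2 hb3 (fun h => h02 h.1))
    (nadj 0 2 2 (n 2) _ _ (by omega) (by omega) hy2 hb3 (by
      rintro (h | h)
      · exact h02 h.1
      · omega))
  refine hCL V G R F F' (m + 2) (m' + 2) a2 y y' b3 hE hA hFR hFR' sa2.1 sy.1 sy'.1 sb3.1 i1 i2
    ?_ ?_ ?_ ?_ ?_ ?_ ?_ ?_ ?_ hT
  · have := (hpi.adj 0 0 1 2 (by omega) (by omega)).2 (Or.inl ⟨rfl, Or.inl rfl⟩)
    rw [hy, hy2] at this
    exact this
  · exact hne 1 2 0 (n 2) _ _ (by omega) le_rfl ha2 hb3 (fun h => h12 h.1)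
  · exact nadj 1 0 0 1 _ _ (by omega) (by omega) ha2 hy (by
      rintro (h | h)
      · exact h01 h.1.symm
      · omega)
  · exact nadj 1 0 0 2 _ _ (by omega) (by omega) ha2 hy2 (by
      rintro (h | h)
      · exact h01 h.1.symm
      · omega)
  · exact nadj 1 2 0 (n 2) _ _ (by omega) (by omega) ha2 hb3 (by
      rintro (h | h)
      · exact h12 h.1
      · omega)
  · exact nadj 0 2 1 (n 2) _ _ (by omega) (by omega) hy hb3 (by
      rintro (h | h)
      · exact h02 h.1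
      · omega)
  · exact nadj 0 2 2 (n 2) _ _ (by omega) (by omega) hy2 hb3 (by
      rintro (h | h)
      · exact h02 h.1
      · omega)
  · intro w hw
    refine ⟨not_sees sy'.1 hFR hFC (nsF 0 2 y' (by omega) hy2 ?_) w hw,
      not_sees sb3.1 hFR hFC (nsF 2 (n 2) b3 le_rfl hb3 ?_) w hw⟩
    · rintro (h | h)
      · omega
      · exact h.1 rfl
    · rintro (h | h)
      · exact h02 h.1
      · omega
  · intro w hw
    refine ⟨not_sees sa2.1 hFR' hFC' (nsF' 1 0 a2 (by omega) ha2 ?_) w hw,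
      not_sees sy.1 hFR' hFC' (nsF' 0 1 y (by omega) hy ?_) w hw⟩
    · rintro (h | h)
      · exact h01 h.1
      · omega
    · rintro (h | h)
      · omega
      · exact h.1 rfl

end Pool.Agent.H1.ER3
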