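import Pool.Agent.H1.ER3.PiLib

/-!
# MP_816b90_co: row Q6 of er3
-/

set_option autoImplicit false

namespace Pool.Agent.H1.ER3

open Pool.Agent.H48.ER Pool.Agent.H52.ER2 Pool.Agent.H66.ER2 Pool.Agent.H20.ER3

theorem pf_Q6 (hQC : U_QC) (hQE : U_QE) (hPS : U_PS) (hGP : U_GP) (hGU : U_GU) (hCL : U_CL) :
    U_Q6 := by
  intro V _ G R F F' n g hE hA hH hM hg0 hgn hT
  have hpi := hM.pi
  have hp0 := hpi.pos 0
  have hp1 := hpi.pos 1
  have hp2 := hpi.pos 2
  obtain ⟨q0, hq0⟩ := hM.odd 0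
  obtain ⟨q1, hq1⟩ := hM.odd 1
  obtain ⟨q2, hq2⟩ := hM.odd 2
  have h01 : (0 : Fin 3) ≠ 1 := by decide
  have h02 : (0 : Fin 3) ≠ 2 := by decide
  have h12 : (1 : Fin 3) ≠ 2 := by decide
  obtain ⟨y, a2, a3, f, f', m, hy, ha2, ha3, sy, sa2, sa3, hcr⟩ :=
    hQC V False G R F n g hE hH hM hg0
  have hMf := (hQE V False G R n g hM).2
  have hMs := (hQE V False G R n _ hMf).1 s01 s01_inj
  obtain ⟨y', b2, b3, e, e', m', hy', hb2, hb3, sy', sb2, sb3, hcr'⟩ :=
    hQC V False G R F' _ _ hE hH hMs (by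
      show g 1 (n 1 - 0) = Sum.inr F'
      simpa using hgn)
  have hy' : g 1 (n 1 - 1) = Sum.inl y' := hy'
  have hb3 : g 2 (n 2) = Sum.inl b3 := by
    have h : g 2 (n 2 - 0) = Sum.inl b3 := hb3
    simpa using h
  have hFR : F ⊆ R := sy.2.1
  have hFC : Cn G F := sy.2.2.1
  have hFR' : F' ⊆ R := sy'.2.1
  have hFC' : Cn G F' := sy'.2.2.1
  obtain ⟨hD1, hD2, hD3⟩ := hGU V G R F F' hFR hFR' hFC hFC' hT
  have hmem0 : Sum.inr F ∈ vI n g := ⟨0, 0, by omega, hg0⟩
  have hmem1 : Sum.inr F' ∈ vI n g := ⟨1, n 1, le_rfl, hgn⟩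
  have hseg := hPS (V ⊕ Set V) (MG G R) n g 2 0 (n 2) hpi (by omega) (by omega)
  have hn2 : n 2 = 1 := by
    by_contra hne
    have hev := hGP V False G R (F ∪ F') (n 2 - 0) _ _ _ hH hseg (by omega) ?_ ?_
    · obtain ⟨r, hr⟩ := hev
      omega
    · rintro w ⟨k, hk1, hk2, rfl⟩
      rw [hD2, ← hg0, ← hgn, hpi.adj 0 2 0 k (by omega) (by omega),
        hpi.adj 1 2 (n 1) k le_rfl (by omega)]
      constructor
      · rintro ((h | h) | (h | h))
        · exact absurd h.1 h02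
        · left
          have : k = 0 := by omega
          rw [this]
        · exact absurd h.1 h12
        · right
          have : k = n 2 := by omega
          rw [this]
      · rintro (h | h)
        · have := (hpi.inj 2 2 k 0 (by omega) (by omega) h).2
          left; right; exact ⟨h02, by omega⟩
        · have := (hpi.inj 2 2 k (n 2) (by omega) (by omega) h).2
          right; right; exact ⟨h12, by omega⟩
    · refine ⟨hD3 (vI n g) _ hM.al.1 hmem0 hmem1 ?_, fun h => h.elim⟩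
      refine Set.insert_subset_insert ?_
      rintro w ⟨k, hk1, hk2, rfl⟩
      exact ⟨2, k, by omega, rfl⟩
  refine ⟨hn2, ?_⟩
  by_contra hno
  have hn0 : 3 ≤ n 0 := by omega
  have hn1 : 3 ≤ n 1 := by omega
  have i1 : Int G F (m + 2) y a3 := Cr.int3 hcr (Sees.not_mem sy) (Sees.not_mem sa3)
    (pi_ne hpi 0 2 1 0 (by omega) (by omega) hy ha3 (fun h => h02 h.1))
    (pi_nadj hpi 0 2 1 0 (by omega) (by omega) hy ha3 (by
      rintro (h | h)
      · exact h02 h.1
      · omega))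
  have i2 : Int G F' (m' + 2) b3 y' := Int.rev (Cr.int3 hcr' (Sees.not_mem sy')
    (Sees.not_mem sb3)
    (pi_ne hpi 1 2 (n 1 - 1) (n 2) (by omega) le_rfl hy' hb3 (fun h => h12 h.1))
    (pi_nadj hpi 1 2 (n 1 - 1) (n 2) (by omega) le_rfl hy' hb3 (by
      rintro (h | h)
      · exact h12 h.1
      · omega)))
  refine hCL V G R F F' (m + 2) (m' + 2) y a3 b3 y' hE hA hFR hFR' sy.1 sa3.1 sb3.1 sy'.1 i1 i2
    ?_ ?_ ?_ ?_ ?_ ?_ ?_ ?_ ?_ hT
  · have := (hpi.adj 2 2 0 (n 2) (by omega) le_rfl).2 (Or.inl ⟨rfl, Or.inl (by omega)⟩)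
    rw [ha3, hb3] at this
    exact this
  · exact pi_ne hpi 0 1 1 (n 1 - 1) (by omega) (by omega) hy hy' (fun h => h01 h.1)
  · exact pi_nadj hpi 0 2 1 0 (by omega) (by omega) hy ha3 (by
      rintro (h | h)
      · exact h02 h.1
      · omega)
  · exact pi_nadj hpi 0 2 1 (n 2) (by omega) le_rfl hy hb3 (by
      rintro (h | h)
      · exact h02 h.1
      · omega)
  · exact pi_nadj hpi 0 1 1 (n 1 - 1) (by omega) (by omega) hy hy' (by
      rintro (h | h)
      · exact h01 h.1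
      · omega)
  · exact pi_nadj hpi 2 1 0 (n 1 - 1) (by omega) (by omega) ha3 hy' (by
      rintro (h | h)
      · exact h12 h.1.symm
      · omega)
  · exact pi_nadj hpi 2 1 (n 2) (n 1 - 1) (by omega) (by omega) hb3 hy' (by
      rintro (h | h)
      · exact h12 h.1.symm
      · omega)
  · intro w hw
    refine ⟨not_sees sb3.1 hFR hFC (pi_nsees hpi 0 2 0 (n 2) (by omega) le_rfl hg0 hb3 ?_) w hw,
      not_sees sy'.1 hFR hFC (pi_nsees hpi 0 1 0 (n 1 - 1) (by omega) (by omega) hg0 hy' ?_) w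
        hw⟩
    · rintro (h | h)
      · exact h02 h.1
      · omega
    · rintro (h | h)
      · exact h01 h.1
      · omega
  · intro w hw
    refine ⟨not_sees sy.1 hFR' hFC' (pi_nsees hpi 1 0 (n 1) 1 le_rfl (by omega) hgn hy ?_) w hw,
      not_sees sa3.1 hFR' hFC' (pi_nsees hpi 1 2 (n 1) 0 le_rfl (by omega) hgn ha3 ?_) w hw⟩
    · rintro (h | h)
      · exact h01 h.1.symm
      · omega
    · rintro (h | h)
      · exact h12 h.1
      · omega

end Pool.Agent.H1.ER3
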