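import Pool.Agent.H1.ER3.PiLib

/-!
# MP_816b90_co: row QM of er3
-/

set_option autoImplicit false

namespace Pool.Agent.H1.ER3

open Pool.Agent.H48.ER Pool.Agent.H52.ER2 Pool.Agent.H66.ER2 Pool.Agent.H20.ER3

theorem tch_symm {V : Type} {G : SimpleGraph V} {F F' : Set V} (h : Tch G F F') :
    Tch G F' F := by
  obtain ⟨f, hf, f', hf', e⟩ := h
  exact ⟨f', hf', f, hf, e.elim (fun e => Or.inl e.symm) (fun e => Or.inr e.symm)⟩

theorem ex_perm1 : ∀ i : Fin 3, ∃ σ : Fin 3 → Fin 3, Function.Injective σ ∧ σ 0 = i := by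
  decide

theorem ex_perm2 : ∀ i j : Fin 3, i ≠ j →
    ∃ σ : Fin 3 → Fin 3, Function.Injective σ ∧ σ 0 = i ∧ σ 1 = j := by
  decide

theorem pf_QM (hQB : U_QB) (hQD : U_QD) (hQE : U_QE) (hQ1 : U_Q1) (hQ2 : U_Q2) (hQ3 : U_Q3)
    (hQ4 : U_Q4) (hQ5 : U_Q5) (hQ6 : U_Q6) (hQ7 : U_Q7) (hQ8 : U_Q8) (hGB : U_GB)
    (hPB : U_PB) : U_QM := by
  intro V _ o G R hNOH hNOP hE hAX hH n0 g0 hp0 ha0 hodd0
  obtain ⟨n, g, hM⟩ := exists_mp hp0 hodd0 ha0
  -- every root touches another root
  have exF : ∀ (n : Fin 3 → ℕ) (g : Fin 3 → ℕ → V ⊕ Set V), MP o G R n g → ∀ (i : Fin 3) (k : ℕ)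
      (F : Set V), k ≤ n i → g i k = Sum.inr F → ∃ F' ∈ rt (vI n g), F' ≠ F ∧ Tch G F F' := by
    intro n g hM i k F hk hF
    obtain ⟨σ, hσ, hσ0⟩ := ex_perm1 i
    have hMσ := (hQE V o G R n g hM).1 σ hσ
    have hsub : rt (vI (fun i => n (σ i)) (fun i => g (σ i))) ⊆ rt (vI n g) := by
      rintro F' ⟨i', k', hk', e⟩
      exact ⟨σ i', k', hk', e⟩
    by_cases h1 : k = 0
    · obtain ⟨F', h2, h3⟩ := hQD V o G R F _ _ hE hH hMσ (by
        show g (σ 0) 0 = Sum.inr F
        rw [hσ0, ← h1]; exact hF)
      exact ⟨F', hsub h2, h3⟩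
    · by_cases h2 : k = n i
      · have hMf := (hQE V o G R _ _ hMσ).2
        obtain ⟨F', h4, h3⟩ := hQD V o G R F _ _ hE hH hMf (by
          show g (σ 0) (n (σ 0) - 0) = Sum.inr F
          rw [hσ0, Nat.sub_zero, ← h2]; exact hF)
        refine ⟨F', hsub ?_, h3⟩
        obtain ⟨i', k', hk', e⟩ := h4
        exact ⟨i', n (σ i') - k', Nat.sub_le _ _, e⟩
      · obtain ⟨F', h4, h3⟩ := hQB V o G R F _ _ k hE hMσ (by omega) (by
          show k < n (σ 0)
          rw [hσ0]; omega) (by
          show g (σ 0) k = Sum.inr F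
          rw [hσ0]; exact hF)
        exact ⟨F', hsub h4, h3⟩
  by_cases hrt : rt (vI n g) = ∅
  · obtain ⟨g', h1, _⟩ := (hGB V G R n).2 g hM.pi hrt
    exact hNOP _ _ _ _ (hPB V G n g' h1) hM.odd
  · obtain ⟨F, i, k, hk, hF⟩ := Set.nonempty_iff_ne_empty.2 hrt
    obtain ⟨F', hF', hne, hT⟩ := exF n g hM i k F hk hF
    by_cases ho : o
    · exact hne (hM.al.2 ho hF' ⟨i, k, hk, hF⟩)
    · obtain ⟨hA, hX⟩ := hAX ho
      have ho' : o = False := propext ⟨ho, False.elim⟩
      subst ho'
      obtain ⟨j, l, hl, hF'⟩ := hF'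
      clear exF hrt hAX ho hp0 ha0 hodd0
      -- the same rung
      have core0 : ∀ (n : Fin 3 → ℕ) (g : Fin 3 → ℕ → V ⊕ Set V) (F F' : Set V) (k l : ℕ),
          MP False G R n g → Tch G F F' → k < l → l ≤ n 0 → g 0 k = Sum.inr F →
          g 0 l = Sum.inr F' → False := by
        intro n g F F' k l hM hT hkl hl hF hF'
        by_cases h1 : k = 0
        · subst h1
          by_cases h2 : l = n 0
          · subst h2
            exact hQ5 V G R F F' n g hE hA hH hM hF hF' hT
          · exact hQ3 V G R F F' n g l hH hM (by omega) (by omega) hF hF' hT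
        · by_cases h2 : l = n 0
          · subst h2
            have hMf := (hQE V False G R n g hM).2
            refine hQ3 V G R F' F _ _ (n 0 - k) hH hMf (by omega) (by omega) ?_ ?_
              (tch_symm hT)
            · show g 0 (n 0 - 0) = _
              rw [Nat.sub_zero]; exact hF'
            · show g 0 (n 0 - (n 0 - k)) = _
              rw [show n 0 - (n 0 - k) = k by omega]; exact hF
          · exact hQ1 V G R F F' n g k l hE hA hH hM (by omega) hkl (by omega) hF hF' hT
      -- a corner and a vertex of another rung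
      have core1 : ∀ (n : Fin 3 → ℕ) (g : Fin 3 → ℕ → V ⊕ Set V) (F F' : Set V) (l : ℕ),
          MP False G R n g → Tch G F F' → l ≤ n 1 → g 0 0 = Sum.inr F →
          g 1 l = Sum.inr F' → False := by
        intro n g F F' l hM hT hl hF hF'
        by_cases h1 : l = 0
        · subst h1
          have := (hM.pi.adj 0 1 0 0 (Nat.zero_le _) (Nat.zero_le _)).2
            (Or.inr ⟨by decide, Or.inl ⟨rfl, rfl⟩⟩)
          rw [hF, hF'] at this
          exact mg_rr this
        · by_cases h2 : l = n 1
          · subst h2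
            obtain ⟨h3, h4⟩ := hQ6 V G R F F' n g hE hA hH hM hF hF' hT
            have all1 : n 0 = 1 ∧ n 1 = 1 := by
              rcases h4 with h4 | h4
              · exact ⟨h4, hQ7 V G R F F' n g hNOH hE hA hH hM hF hF' h4 h3 hT⟩
              · have hMf := (hQE V False G R n g hM).2
                have hMs := (hQE V False G R n _ hMf).1 s01 s01_inj
                have := hQ7 V G R F' F _ _ hNOH hE hA hH hMs (by
                  show g 1 (n 1 - 0) = _
                  rw [Nat.sub_zero]; exact hF') (by
                  show g 0 (n 0 - n 0) = _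
                  rw [Nat.sub_self]; exact hF) h4 h3 (tch_symm hT)
                exact ⟨this, h4⟩
            refine hQ8 V G R F F' n g hNOH hE hX hH hM hF (by rw [← all1.2]; exact hF') ?_ hT
            intro i
            fin_cases i
            · exact all1.1
            · exact all1.2
            · exact h3
          · exact hQ4 V G R F F' n g l hE hA hH hM (by omega) (by omega) hF hF' hT
      have core2 : ∀ (n : Fin 3 → ℕ) (g : Fin 3 → ℕ → V ⊕ Set V) (F F' : Set V) (k l : ℕ),
          MP False G R n g → Tch G F F' → k ≤ n 0 → l ≤ n 1 → g 0 k = Sum.inr F →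
          g 1 l = Sum.inr F' → False := by
        intro n g F F' k l hM hT hk hl hF hF'
        have hMf := (hQE V False G R n g hM).2
        by_cases h1 : k = 0
        · subst h1
          exact core1 n g F F' l hM hT hl hF hF'
        by_cases h2 : k = n 0
        · subst h2
          refine core1 _ _ F F' (n 1 - l) hMf hT (Nat.sub_le _ _) ?_ ?_
          · show g 0 (n 0 - 0) = _
            rw [Nat.sub_zero]; exact hF
          · show g 1 (n 1 - (n 1 - l)) = _
            rw [show n 1 - (n 1 - l) = l by omega]; exact hF'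
        by_cases h3 : l = 0
        · subst h3
          have hMs := (hQE V False G R n g hM).1 s01 s01_inj
          exact core1 _ _ F' F k hMs (tch_symm hT) hk hF' hF
        by_cases h4 : l = n 1
        · subst h4
          have hMs := (hQE V False G R n _ hMf).1 s01 s01_inj
          refine core1 _ _ F' F (n 0 - k) hMs (tch_symm hT) (Nat.sub_le _ _) ?_ ?_
          · show g 1 (n 1 - 0) = _
            rw [Nat.sub_zero]; exact hF'
          · show g 0 (n 0 - (n 0 - k)) = _
            rw [show n 0 - (n 0 - k) = k by omega]; exact hF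
        exact hQ2 V G R F F' n g k l hH hM (by omega) (by omega) (by omega) (by omega) hF hF' hT
      by_cases hij : i = j
      · subst hij
        obtain ⟨σ, hσ, hσ0⟩ := ex_perm1 i
        have hMσ := (hQE V False G R n g hM).1 σ hσ
        have hkl : k ≠ l := by
          rintro rfl
          rw [hF] at hF'
          exact hne (Sum.inr.inj hF').symm
        rcases lt_or_gt_of_ne hkl with h | h
        · exact core0 _ _ F F' k l hMσ hT h (by
            show l ≤ n (σ 0)
            rw [hσ0]; exact hl) (by
            show g (σ 0) k = _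
            rw [hσ0]; exact hF) (by
            show g (σ 0) l = _
            rw [hσ0]; exact hF')
        · exact core0 _ _ F' F l k hMσ (tch_symm hT) h (by
            show k ≤ n (σ 0)
            rw [hσ0]; exact hk) (by
            show g (σ 0) l = _
            rw [hσ0]; exact hF') (by
            show g (σ 0) k = _
            rw [hσ0]; exact hF)
      · obtain ⟨σ, hσ, hσ0, hσ1⟩ := ex_perm2 i j hij
        have hMσ := (hQE V False G R n g hM).1 σ hσ
        exact core2 _ _ F F' k l hMσ hT (by
            show k ≤ n (σ 0)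
            rw [hσ0]; exact hk) (by
            show l ≤ n (σ 1)
            rw [hσ1]; exact hl) (by
            show g (σ 0) k = _
            rw [hσ0]; exact hF) (by
            show g (σ 1) l = _
            rw [hσ1]; exact hF')

end Pool.Agent.H1.ER3
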